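import Pool.Agent.H30.TauG

set_option autoImplicit false

namespace Pool.Agent.Results.MP_d9033c_gt.CH

open Pool.Agent.H30.Tau Cardinal

/-- The continuum hypothesis refutes the equality of `(Ω choose T)` and `(Ω choose Γ)`. -/
theorem result (hc : (𝔠 : Cardinal.{0}) = ℵ₁) :
    ¬ ∀ X : Set ℝ,
      (∀ C : Set (Set X), (∀ U ∈ C, IsOpen U) → Set.univ ∉ C →
          (∀ F : Finset X, ∃ U ∈ C, ∀ x ∈ F, x ∈ U) →
          ∃ D ⊆ C, (∀ x : X, {U | U ∈ D ∧ x ∈ U}.Infinite) ∧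
            ∀ x y : X, {U | U ∈ D ∧ x ∈ U ∧ y ∉ U}.Finite ∨
              {U | U ∈ D ∧ y ∈ U ∧ x ∉ U}.Finite)
      ↔
      (∀ C : Set (Set X), (∀ U ∈ C, IsOpen U) → Set.univ ∉ C →
          (∀ F : Finset X, ∃ U ∈ C, ∀ x ∈ F, x ∈ U) →
          ∃ D ⊆ C, D.Infinite ∧ ∀ x : X, {U | U ∈ D ∧ x ∉ U}.Finite) := fun h => by
  obtain ⟨X, h1, -, h2, h3, -⟩ := tower_real hc
  have h0 : Nonempty X := by
    by_contra h0
    have := not_nonempty_iff.1 h0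
    exact h3 fun 𝒰 h _ => absurd (Set.toFinite _) (h 0).2.1
  refine h2 fun 𝒰 h4 => ?_
  obtain ⟨D, h5, h6, h7⟩ := (h X).1 (fun C e1 e2 e3 =>
    let ⟨D, e4, e5⟩ := h1.ch C (om_of e1 e2 fun F hF => (e3 hF.toFinset).imp fun _ h =>
      ⟨h.1, fun x hx => h.2 x (hF.mem_toFinset.2 hx)⟩)
    ⟨D, e4, e5.2⟩) 𝒰 h4.1.1 h4.1.2.1 fun F => h4.om.2 _ F.finite_toSet
  exact ⟨D, h5, oc_of (fun U hU => h4.1.1 U (h5 hU)) (fun e => h4.1.2.1 (h5 e)) fun x =>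
    (h6.diff (h7 x)).mono fun U hU => ⟨hU.1, by_contra fun e => hU.2 ⟨hU.1, e⟩⟩, h6, h7⟩

end Pool.Agent.Results.MP_d9033c_gt.CH
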